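import Pool.Agent.W533.PP.Stm

/-!
# Counting of the plane permutations
-/

set_option autoImplicit false

namespace Pool.Agent.W67.PP

open Finset
open scoped Classical
open Pool.Agent.W533.PP

theorem step (h1 : INSB) (h2 : PINS) (h3 : PSUM) (n m : ℕ) :
    ∑ σ ∈ (univ : Finset (Equiv.Perm (Fin (n + 2)))).filter (fun σ => Plane σ),
      T m (hL σ) (kL σ) =
    ∑ τ ∈ (univ : Finset (Equiv.Perm (Fin (n + 1)))).filter (fun σ => Plane σ),
      T (m + 1) (hL τ) (kL τ) := by
  rw [Finset.sum_filter, Finset.sum_filter]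
  have hb := (h1 (n + 1)).sum_comp (fun σ : Equiv.Perm (Fin (n + 2)) =>
    if Plane σ then T m (hL σ) (kL σ) else 0)
  rw [← hb, Fintype.sum_prod_type_right]
  refine Finset.sum_congr rfl fun τ _ => ?_
  by_cases hτ : Plane τ
  · rw [if_pos hτ, ← h3 n τ hτ m, Finset.sum_filter]
    refine Finset.sum_congr rfl fun v _ => ?_
    by_cases hv : Act τ v.val
    · rw [if_pos hv, if_pos ((h2 (n + 1) v τ).mpr ⟨hτ, hv⟩)]
    · rw [if_neg hv, if_neg (fun h => hv ((h2 (n + 1) v τ).mp h).2)]
  · rw [if_neg hτ]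
    refine Finset.sum_eq_zero fun v _ => ?_
    rw [if_neg (fun h => hτ ((h2 (n + 1) v τ).mp h).1)]

theorem iter (h1 : INSB) (h2 : PINS) (h3 : PSUM) (n : ℕ) : ∀ m : ℕ,
    ∑ σ ∈ (univ : Finset (Equiv.Perm (Fin (n + 1)))).filter (fun σ => Plane σ),
      T m (hL σ) (kL σ) =
    ∑ τ ∈ (univ : Finset (Equiv.Perm (Fin (0 + 1)))).filter (fun σ => Plane σ),
      T (n + m) (hL τ) (kL τ) := by
  induction n with
  | zero =>
    intro m
    have e : 0 + m = m := Nat.zero_add m
    exact Finset.sum_congr rfl fun τ _ => by rw [e]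
  | succ n ih =>
    intro m
    have e : n + (m + 1) = n + 1 + m := by ring
    rw [step h1 h2 h3 n m, ih (m + 1)]
    exact Finset.sum_congr rfl fun τ _ => by rw [e]

theorem act_one (τ : Equiv.Perm (Fin (0 + 1))) (s : ℕ) : Act τ s := by
  intro i j k hij
  exact absurd hij (by omega)

theorem plane_one (τ : Equiv.Perm (Fin (0 + 1))) : Plane τ := by
  intro i j k l hij
  exact absurd hij (by omega)

theorem hL_one (τ : Equiv.Perm (Fin (0 + 1))) : hL τ = 1 := by
  unfold hL
  rw [Finset.filter_true_of_mem (fun s _ => act_one τ s), Finset.card_range]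
  have := (τ (Fin.last 0)).isLt
  omega

theorem kL_one (τ : Equiv.Perm (Fin (0 + 1))) : kL τ = 1 := by
  unfold kL
  rw [Finset.filter_true_of_mem (fun s _ => act_one τ s), Nat.card_Ico]
  have := (τ (Fin.last 0)).isLt
  omega

theorem pcount (h1 : INSB) (h2 : PINS) (h3 : PSUM) : PCOUNT := by
  intro n
  have h := iter h1 h2 h3 n 0
  simp only [T_zero] at h
  rw [Finset.card_eq_sum_ones, h]
  rw [Finset.filter_true_of_mem (fun σ _ => plane_one σ)]
  rw [Finset.sum_congr rfl (fun τ _ => by rw [hL_one, kL_one])]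
  rw [Finset.sum_const, Finset.card_univ, Fintype.card_perm, Fintype.card_fin]
  simp

end Pool.Agent.W67.PP
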